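import Mathlib

/-!
# MP_b66d25_co: Delaunay graphs for axis-parallel rectangles and substitution

If a finite planar point set is built by repeated inflation (substitution) from point sets whose
rectangle Delaunay graph is `C`-colourable, then its rectangle Delaunay graph has chromatic number
at most `(C + 3)^2`.  In particular it is at most `9` for separable point sets.
-/

set_option autoImplicit false

namespace Pool.Agent.Results.MP_b66d25_co.SubstitutionClosure

open Finset

/-- `p`, `q` are adjacent in the rectangle Delaunay graph of `P`. -/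
def Adj (P : Finset (ℝ × ℝ)) (p q : ℝ × ℝ) : Prop :=
  p ∈ P ∧ q ∈ P ∧ p ≠ q ∧ ∃ a b c d : ℝ, ∀ z ∈ P,
    (a ≤ z.1 ∧ z.1 ≤ b ∧ c ≤ z.2 ∧ z.2 ≤ d) ↔ (z = p ∨ z = q)

/-- `B` and `B'` are weakly separated by a vertical line and by a horizontal line. -/
def Sep (B B' : Finset (ℝ × ℝ)) : Prop :=
  ((∀ x ∈ B, ∀ y ∈ B', x.1 ≤ y.1) ∨ (∀ x ∈ B, ∀ y ∈ B', y.1 ≤ x.1)) ∧
  ((∀ x ∈ B, ∀ y ∈ B', x.2 ≤ y.2) ∨ (∀ x ∈ B, ∀ y ∈ B', y.2 ≤ x.2))

/-- the block `M` lies between the blocks `B` and `B'`: inside every rectangle spanned by a point of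
`B` and a point of `B'` -/
def Between (B M B' : Finset (ℝ × ℝ)) : Prop :=
  ∀ x ∈ B, ∀ z ∈ M, ∀ y ∈ B', (min x.1 y.1 ≤ z.1 ∧ z.1 ≤ max x.1 y.1) ∧
    (min x.2 y.2 ≤ z.2 ∧ z.2 ≤ max x.2 y.2)

/-- the smallest class of finite point sets containing the sets with at most one point and closed
under the union of nonempty, pairwise disjoint, pairwise separated members (blocks) which can be
coloured with `C` colours so that any two blocks of the same colour have another block between
them -/
inductive Cl (C : ℕ) : Finset (ℝ × ℝ) → Prop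
  | small (A : Finset (ℝ × ℝ)) : A.card ≤ 1 → Cl C A
  | node (N : ℕ) (B : Fin N → Finset (ℝ × ℝ)) (c : Fin N → Fin C) : (∀ i, Cl C (B i)) →
      (∀ i, (B i).Nonempty) → (∀ i j, i ≠ j → Disjoint (B i) (B j)) →
      (∀ i j, i ≠ j → Sep (B i) (B j)) →
      (∀ i j, i ≠ j → c i = c j → ∃ k, k ≠ i ∧ k ≠ j ∧ Between (B i) (B k) (B j)) →
      Cl C ((univ : Finset (Fin N)).biUnion B)

theorem adj_mono {A B : Finset (ℝ × ℝ)} (h : B ⊆ A) {p q : ℝ × ℝ} (hp : p ∈ B) (hq : q ∈ B)
    (hadj : Adj A p q) : Adj B p q := by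
  obtain ⟨_, _, hne, a, b, c, d, hR⟩ := hadj
  exact ⟨hp, hq, hne, a, b, c, d, fun z hz => hR z (h hz)⟩

/-- nothing else lies in the rectangle spanned by an adjacent pair -/
theorem adj_span {A : Finset (ℝ × ℝ)} {p q z : ℝ × ℝ} (hadj : Adj A p q) (hz : z ∈ A)
    (h1 : min p.1 q.1 ≤ z.1 ∧ z.1 ≤ max p.1 q.1) (h2 : min p.2 q.2 ≤ z.2 ∧ z.2 ≤ max p.2 q.2) :
    z = p ∨ z = q := by
  obtain ⟨hp, hq, _, a, b, c, d, hR⟩ := hadj
  have ep := (hR p hp).2 (Or.inl rfl)
  have eq := (hR q hq).2 (Or.inr rfl)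
  refine (hR z hz).1 ⟨?_, ?_, ?_, ?_⟩
  · exact (le_min ep.1 eq.1).trans h1.1
  · exact h1.2.trans (max_le ep.2.1 eq.2.1)
  · exact (le_min ep.2.2.1 eq.2.2.1).trans h2.1
  · exact h2.2.trans (max_le ep.2.2.2 eq.2.2.2)

theorem adj_symm {A : Finset (ℝ × ℝ)} {p q : ℝ × ℝ} (h : Adj A p q) : Adj A q p := by
  obtain ⟨hp, hq, hne, a, b, c, d, hR⟩ := h
  exact ⟨hq, hp, hne.symm, a, b, c, d, fun z hz => (hR z hz).trans or_comm⟩

/-- spare colours -/
theorem palette (C : ℕ) (a b : Fin (C + 3)) (hab : a ≠ b) :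
    ∃ (z : Fin (C + 3)) (u : Fin C → Fin (C + 3)), z ≠ a ∧ z ≠ b ∧
      (∀ i, u i ≠ a ∧ u i ≠ b ∧ u i ≠ z) ∧ Function.Injective u := by
  classical
  have hcard : (({a, b} : Finset (Fin (C + 3)))ᶜ).card = C + 1 := by
    rw [card_compl, card_pair hab, Fintype.card_fin]
    omega
  set e := (({a, b} : Finset (Fin (C + 3)))ᶜ).orderEmbOfFin hcard with he
  have hmem : ∀ i, e i ≠ a ∧ e i ≠ b := by
    intro i
    have := orderEmbOfFin_mem (({a, b} : Finset (Fin (C + 3)))ᶜ) hcard i
    rw [mem_compl, mem_insert, mem_singleton] at this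
    push Not at this
    exact this
  refine ⟨e (Fin.last C), fun i => e i.castSucc, (hmem _).1, (hmem _).2, fun i =>
    ⟨(hmem _).1, (hmem _).2, ?_⟩, ?_⟩
  · intro h
    have := e.injective h
    exact absurd this (Fin.castSucc_lt_last i).ne
  · intro i j hij
    exact Fin.castSucc_injective C (e.injective hij)

/-- the state handed to a block -/
def st {C : ℕ} (hU hL : Prop) [Decidable hU] [Decidable hL] (a b z u : Fin (C + 3)) :
    Fin (C + 3) × Fin (C + 3) :=
  if hU then (if hL then (u, a) else (b, a)) else (if hL then (a, z) else (a, b))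

theorem st_ne {C : ℕ} (hU hL : Prop) [Decidable hU] [Decidable hL] (a b z u : Fin (C + 3))
    (hab : a ≠ b) (hza : z ≠ a) (hua : u ≠ a) : (st hU hL a b z u).1 ≠ (st hU hL a b z u).2 := by
  unfold st
  split_ifs
  · exact hua
  · exact hab.symm
  · exact hza.symm
  · exact hab

theorem st_top {C : ℕ} (hU hL : Prop) [Decidable hU] [Decidable hL] (a b z u : Fin (C + 3))
    (h : ¬ hU) : (st hU hL a b z u).1 = a := by
  unfold st
  rw [if_neg h]
  split_ifs <;> rfl

theorem st_bot {C : ℕ} (hU hL : Prop) [Decidable hU] [Decidable hL] (a b z u : Fin (C + 3))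
    (h : ¬ hL) {v : Fin (C + 3)}
    (hv : v = (st hU hL a b z u).1 ∨ v = (st hU hL a b z u).2) : v = a ∨ v = b := by
  unfold st at hv
  rw [if_neg h, if_neg h] at hv
  split_ifs at hv <;> simp only at hv <;> tauto

theorem st_cross {C : ℕ} (hU hL hU' hL' : Prop) [Decidable hU] [Decidable hL] [Decidable hU']
    [Decidable hL'] (a b z u u' : Fin (C + 3)) (hab : a ≠ b) (hzb : z ≠ b)
    (hu : u ≠ a ∧ u ≠ b ∧ u ≠ z) (hu' : u' ≠ a ∧ u' ≠ b ∧ u' ≠ z) (huu : u ≠ u')
    (h : hU) (h' : hL') {v v' : Fin (C + 3)} (hv : v = (st hU hL a b z u).1)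
    (hv' : v' = (st hU' hL' a b z u').1 ∨ v' = (st hU' hL' a b z u').2) : v ≠ v' := by
  unfold st at hv hv'
  rw [if_pos h] at hv
  rw [if_pos h', if_pos h'] at hv'
  split_ifs at hv hv' <;> simp only at hv hv' <;> subst hv <;> rcases hv' with rfl | rfl
  · exact huu
  · exact hu.1
  · exact hu.1
  · exact hu.2.2
  · exact hu'.2.1.symm
  · exact hab.symm
  · exact hab.symm
  · exact hzb.symm

/-- maximal elements in the product order -/
def Mx (A : Finset (ℝ × ℝ)) (p : ℝ × ℝ) : Prop :=
  ∀ z ∈ A, p.1 ≤ z.1 → p.2 ≤ z.2 → z = p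
def Mn (A : Finset (ℝ × ℝ)) (p : ℝ × ℝ) : Prop :=
  ∀ z ∈ A, z.1 ≤ p.1 → z.2 ≤ p.2 → z = p
def Ax (A : Finset (ℝ × ℝ)) (p : ℝ × ℝ) : Prop :=
  ∀ z ∈ A, p.1 ≤ z.1 → z.2 ≤ p.2 → z = p
def An (A : Finset (ℝ × ℝ)) (p : ℝ × ℝ) : Prop :=
  ∀ z ∈ A, z.1 ≤ p.1 → p.2 ≤ z.2 → z = p

theorem colour (C : ℕ) (A : Finset (ℝ × ℝ)) (hA : Cl C A) :
    ∀ a b a' b' : Fin (C + 3), a ≠ b → a' ≠ b' →
      ∃ f : ℝ × ℝ → Fin (C + 3) × Fin (C + 3),
        (∀ p ∈ A, Mx A p → (f p).1 = a) ∧
        (∀ p ∈ A, Mn A p → (f p).1 = a ∨ (f p).1 = b) ∧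
        (∀ p ∈ A, Ax A p → (f p).2 = a') ∧
        (∀ p ∈ A, An A p → (f p).2 = a' ∨ (f p).2 = b') ∧
        (∀ p q, Adj A p q → f p ≠ f q) := by
  classical
  induction hA with
  | small A h1 =>
    intro a b a' b' _ _
    refine ⟨fun _ => (a, a'), fun _ _ _ => rfl, fun _ _ _ => Or.inl rfl, fun _ _ _ => rfl,
      fun _ _ _ => Or.inl rfl, ?_⟩
    rintro p q ⟨hp, hq, hne, _⟩
    exact absurd (card_le_one.1 h1 p hp q hq) hne
  | node N B c _ hne hdis hsep hbet ih =>
    intro a b a' b' hab hab'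
    obtain ⟨z, u, hza, hzb, hu, huinj⟩ := palette C a b hab
    obtain ⟨z', u', hza', hzb', hu', huinj'⟩ := palette C a' b' hab'
    set hU : Fin N → Prop := fun i => ∃ j, j ≠ i ∧ ∀ x ∈ B i, ∀ y ∈ B j, x.1 ≤ y.1 ∧ x.2 ≤ y.2
      with hhU
    set hL : Fin N → Prop := fun i => ∃ j, j ≠ i ∧ ∀ x ∈ B i, ∀ y ∈ B j, y.1 ≤ x.1 ∧ y.2 ≤ x.2
      with hhL
    set gU : Fin N → Prop := fun i => ∃ j, j ≠ i ∧ ∀ x ∈ B i, ∀ y ∈ B j, x.1 ≤ y.1 ∧ y.2 ≤ x.2
      with hgU
    set gL : Fin N → Prop := fun i => ∃ j, j ≠ i ∧ ∀ x ∈ B i, ∀ y ∈ B j, y.1 ≤ x.1 ∧ x.2 ≤ y.2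
      with hgL
    have ih' := fun i => ih i (st (hU i) (hL i) a b z (u (c i))).1
      (st (hU i) (hL i) a b z (u (c i))).2 (st (gU i) (gL i) a' b' z' (u' (c i))).1
      (st (gU i) (gL i) a' b' z' (u' (c i))).2
      (st_ne _ _ _ _ _ _ hab hza (hu _).1) (st_ne _ _ _ _ _ _ hab' hza' (hu' _).1)
    choose f f1 f2 f3 f4 f5 using ih'
    -- the block of a point
    have hblk : ∀ p : ℝ × ℝ, ∃ i : Option (Fin N), ∀ j, p ∈ B j → i = some j := by
      intro p
      by_cases h : ∃ j, p ∈ B j
      · obtain ⟨j, hj⟩ := h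
        refine ⟨some j, fun k hk => ?_⟩
        by_contra hjk
        have : j ≠ k := fun h => hjk (by rw [h])
        exact disjoint_left.1 (hdis j k this) hj hk
      · exact ⟨none, fun j hj => absurd ⟨j, hj⟩ h⟩
    choose blk hblk using hblk
    set g : ℝ × ℝ → Fin (C + 3) × Fin (C + 3) := fun p =>
      match blk p with
      | none => (a, a')
      | some i => f i p with hg
    have hgi : ∀ i, ∀ p ∈ B i, g p = f i p := by
      intro i p hp
      simp only [hg]
      rw [hblk p i hp]
    have hsub : ∀ i, B i ⊆ (univ : Finset (Fin N)).biUnion B := fun i x hx =>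
      mem_biUnion.2 ⟨i, mem_univ i, hx⟩
    refine ⟨g, ?_, ?_, ?_, ?_, ?_⟩
    · intro p hp hmx
      obtain ⟨i, _, hi⟩ := mem_biUnion.1 hp
      rw [hgi i p hi, f1 i p hi fun z hz => hmx z (hsub i hz)]
      apply st_top
      rintro ⟨j, hji, hj⟩
      obtain ⟨y, hy⟩ := hne j
      have e := hmx y (hsub j hy) (hj p hi y hy).1 (hj p hi y hy).2
      subst e
      exact disjoint_left.1 (hdis j i hji) hy hi
    · intro p hp hmn
      obtain ⟨i, _, hi⟩ := mem_biUnion.1 hp
      rw [hgi i p hi]
      refine st_bot (hU i) (hL i) a b z (u (c i)) ?_ (f2 i p hi fun z hz => hmn z (hsub i hz))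
      rintro ⟨j, hji, hj⟩
      obtain ⟨y, hy⟩ := hne j
      have e := hmn y (hsub j hy) (hj p hi y hy).1 (hj p hi y hy).2
      subst e
      exact disjoint_left.1 (hdis j i hji) hy hi
    · intro p hp hmx
      obtain ⟨i, _, hi⟩ := mem_biUnion.1 hp
      rw [hgi i p hi, f3 i p hi fun z hz => hmx z (hsub i hz)]
      apply st_top
      rintro ⟨j, hji, hj⟩
      obtain ⟨y, hy⟩ := hne j
      have e := hmx y (hsub j hy) (hj p hi y hy).1 (hj p hi y hy).2
      subst e
      exact disjoint_left.1 (hdis j i hji) hy hi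
    · intro p hp hmn
      obtain ⟨i, _, hi⟩ := mem_biUnion.1 hp
      rw [hgi i p hi]
      refine st_bot (gU i) (gL i) a' b' z' (u' (c i)) ?_ (f4 i p hi fun z hz => hmn z (hsub i hz))
      rintro ⟨j, hji, hj⟩
      obtain ⟨y, hy⟩ := hne j
      have e := hmn y (hsub j hy) (hj p hi y hy).1 (hj p hi y hy).2
      subst e
      exact disjoint_left.1 (hdis j i hji) hy hi
    · -- cross pairs
      have hcne : ∀ i j, i ≠ j → ∀ p ∈ B i, ∀ q ∈ B j,
          Adj ((univ : Finset (Fin N)).biUnion B) p q → c i ≠ c j := by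
        intro i j hij p hp q hq hadj hc
        obtain ⟨k, hki, hkj, hk⟩ := hbet i j hij hc
        obtain ⟨w, hw⟩ := hne k
        have e := hk p hp w hw q hq
        rcases adj_span hadj (hsub k hw) e.1 e.2 with rfl | rfl
        · exact disjoint_left.1 (hdis k i hki) hw hp
        · exact disjoint_left.1 (hdis k j hkj) hw hq
      have key1 : ∀ i j, i ≠ j → ∀ p ∈ B i, ∀ q ∈ B j,
          Adj ((univ : Finset (Fin N)).biUnion B) p q →
          (∀ x ∈ B i, ∀ y ∈ B j, x.1 ≤ y.1 ∧ x.2 ≤ y.2) → (f i p).1 ≠ (f j q).1 := by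
        intro i j hij p hp q hq hadj hle
        have hpq := hle p hp q hq
        have hpm : Mx (B i) p := by
          intro w hw h1 h2
          have hwq := hle w hw q hq
          rcases adj_span hadj (hsub i hw)
            ⟨(min_le_left _ _).trans h1, hwq.1.trans (le_max_right _ _)⟩
            ⟨(min_le_left _ _).trans h2, hwq.2.trans (le_max_right _ _)⟩ with h | h
          · exact h
          · subst h
            exact absurd hq (disjoint_left.1 (hdis i j hij) hw)
        have hqm : Mn (B j) q := by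
          intro w hw h1 h2
          have hpw := hle p hp w hw
          rcases adj_span hadj (hsub j hw)
            ⟨(min_le_left _ _).trans hpw.1, h1.trans (le_max_right _ _)⟩
            ⟨(min_le_left _ _).trans hpw.2, h2.trans (le_max_right _ _)⟩ with h | h
          · subst h
            exact absurd hw (disjoint_left.1 (hdis i j hij) hp)
          · exact h
        exact st_cross (hU i) (hL i) (hU j) (hL j) a b z (u (c i)) (u (c j)) hab hzb (hu _) (hu _)
          (fun h => hcne i j hij p hp q hq hadj (huinj h)) ⟨j, hij.symm, hle⟩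
          ⟨i, hij, fun x hx y hy => hle y hy x hx⟩ (f1 i p hp hpm) (f2 j q hq hqm)
      have key2 : ∀ i j, i ≠ j → ∀ p ∈ B i, ∀ q ∈ B j,
          Adj ((univ : Finset (Fin N)).biUnion B) p q →
          (∀ x ∈ B i, ∀ y ∈ B j, x.1 ≤ y.1 ∧ y.2 ≤ x.2) → (f i p).2 ≠ (f j q).2 := by
        intro i j hij p hp q hq hadj hle
        have hpq := hle p hp q hq
        have hpm : Ax (B i) p := by
          intro w hw h1 h2
          have hwq := hle w hw q hq
          rcases adj_span hadj (hsub i hw)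
            ⟨(min_le_left _ _).trans h1, hwq.1.trans (le_max_right _ _)⟩
            ⟨(min_le_right _ _).trans hwq.2, h2.trans (le_max_left _ _)⟩ with h | h
          · exact h
          · subst h
            exact absurd hq (disjoint_left.1 (hdis i j hij) hw)
        have hqm : An (B j) q := by
          intro w hw h1 h2
          have hpw := hle p hp w hw
          rcases adj_span hadj (hsub j hw)
            ⟨(min_le_left _ _).trans hpw.1, h1.trans (le_max_right _ _)⟩
            ⟨(min_le_right _ _).trans h2, hpw.2.trans (le_max_left _ _)⟩ with h | h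
          · subst h
            exact absurd hw (disjoint_left.1 (hdis i j hij) hp)
          · exact h
        exact st_cross (gU i) (gL i) (gU j) (gL j) a' b' z' (u' (c i)) (u' (c j)) hab' hzb' (hu' _)
          (hu' _) (fun h => hcne i j hij p hp q hq hadj (huinj' h)) ⟨j, hij.symm, hle⟩
          ⟨i, hij, fun x hx y hy => hle y hy x hx⟩ (f3 i p hp hpm) (f4 j q hq hqm)
      intro p q hadj
      obtain ⟨i, _, hi⟩ := mem_biUnion.1 hadj.1
      obtain ⟨j, _, hj⟩ := mem_biUnion.1 hadj.2.1
      rw [hgi i p hi, hgi j q hj]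
      by_cases hij : i = j
      · subst hij
        exact f5 i p q (adj_mono (hsub i) hi hj hadj)
      · intro heq
        have hs := hsep i j hij
        rcases hs.1 with h1 | h1 <;> rcases hs.2 with h2 | h2
        · exact key1 i j hij p hi q hj hadj (fun x hx y hy => ⟨h1 x hx y hy, h2 x hx y hy⟩)
            (by rw [heq])
        · exact key2 i j hij p hi q hj hadj (fun x hx y hy => ⟨h1 x hx y hy, h2 x hx y hy⟩)
            (by rw [heq])
        · exact key2 j i (Ne.symm hij) q hj p hi (adj_symm hadj)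
            (fun x hx y hy => ⟨h1 y hy x hx, h2 y hy x hx⟩) (by rw [heq])
        · exact key1 j i (Ne.symm hij) q hj p hi (adj_symm hadj)
            (fun x hx y hy => ⟨h1 y hy x hx, h2 y hy x hx⟩) (by rw [heq])

/-- separable point sets: the smallest class of finite point sets containing the sets with at most
one point and closed under the union of two disjoint members one of which lies (weakly) above and to
the right, or below and to the right, of the other -/
inductive Separable : Finset (ℝ × ℝ) → Prop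
  | small (A : Finset (ℝ × ℝ)) : A.card ≤ 1 → Separable A
  | up (A B : Finset (ℝ × ℝ)) : Separable A → Separable B → Disjoint A B →
      (∀ x ∈ A, ∀ y ∈ B, x.1 ≤ y.1 ∧ x.2 ≤ y.2) → Separable (A ∪ B)
  | down (A B : Finset (ℝ × ℝ)) : Separable A → Separable B → Disjoint A B →
      (∀ x ∈ A, ∀ y ∈ B, x.1 ≤ y.1 ∧ y.2 ≤ x.2) → Separable (A ∪ B)

/-- adjacent points of two blocks, the first below and to the left of the second -/
theorem cross_up {A B : Finset (ℝ × ℝ)} (hd : Disjoint A B)
    (hle : ∀ x ∈ A, ∀ y ∈ B, x.1 ≤ y.1 ∧ x.2 ≤ y.2) {p q : ℝ × ℝ} (hp : p ∈ A) (hq : q ∈ B)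
    (hadj : Adj (A ∪ B) p q) : Mx A p ∧ Mn B q := by
  have hpq := hle p hp q hq
  constructor
  · intro w hw h1 h2
    have hwq := hle w hw q hq
    rcases adj_span hadj (mem_union_left B hw)
      ⟨(min_le_left _ _).trans h1, hwq.1.trans (le_max_right _ _)⟩
      ⟨(min_le_left _ _).trans h2, hwq.2.trans (le_max_right _ _)⟩ with h | h
    · exact h
    · subst h
      exact absurd hq (disjoint_left.1 hd hw)
  · intro w hw h1 h2
    have hpw := hle p hp w hw
    rcases adj_span hadj (mem_union_right A hw)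
      ⟨(min_le_left _ _).trans hpw.1, h1.trans (le_max_right _ _)⟩
      ⟨(min_le_left _ _).trans hpw.2, h2.trans (le_max_right _ _)⟩ with h | h
    · subst h
      exact absurd hw (disjoint_left.1 hd hp)
    · exact h

/-- adjacent points of two blocks, the first above and to the left of the second -/
theorem cross_down {A B : Finset (ℝ × ℝ)} (hd : Disjoint A B)
    (hle : ∀ x ∈ A, ∀ y ∈ B, x.1 ≤ y.1 ∧ y.2 ≤ x.2) {p q : ℝ × ℝ} (hp : p ∈ A) (hq : q ∈ B)
    (hadj : Adj (A ∪ B) p q) : Ax A p ∧ An B q := by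
  have hpq := hle p hp q hq
  constructor
  · intro w hw h1 h2
    have hwq := hle w hw q hq
    rcases adj_span hadj (mem_union_left B hw)
      ⟨(min_le_left _ _).trans h1, hwq.1.trans (le_max_right _ _)⟩
      ⟨(min_le_right _ _).trans hwq.2, h2.trans (le_max_left _ _)⟩ with h | h
    · exact h
    · subst h
      exact absurd hq (disjoint_left.1 hd hw)
  · intro w hw h1 h2
    have hpw := hle p hp w hw
    rcases adj_span hadj (mem_union_right A hw)
      ⟨(min_le_left _ _).trans hpw.1, h1.trans (le_max_right _ _)⟩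
      ⟨(min_le_right _ _).trans h2, hpw.2.trans (le_max_left _ _)⟩ with h | h
    · subst h
      exact absurd hw (disjoint_left.1 hd hp)
    · exact h

theorem third (a b : Fin 3) (h : a ≠ b) : ∃ c : Fin 3, c ≠ a ∧ c ≠ b := by
  revert a b
  decide

theorem colour3 (A : Finset (ℝ × ℝ)) (hA : Separable A) :
    ∀ a b a' b' : Fin 3, a ≠ b → a' ≠ b' →
      ∃ f : ℝ × ℝ → Fin 3 × Fin 3,
        (∀ p ∈ A, Mx A p → (f p).1 = a) ∧
        (∀ p ∈ A, Mn A p → (f p).1 = a ∨ (f p).1 = b) ∧
        (∀ p ∈ A, Ax A p → (f p).2 = a') ∧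
        (∀ p ∈ A, An A p → (f p).2 = a' ∨ (f p).2 = b') ∧
        (∀ p q, Adj A p q → f p ≠ f q) := by
  classical
  induction hA with
  | small A h1 =>
    intro a b a' b' _ _
    refine ⟨fun _ => (a, a'), fun _ _ _ => rfl, fun _ _ _ => Or.inl rfl, fun _ _ _ => rfl,
      fun _ _ _ => Or.inl rfl, ?_⟩
    rintro p q ⟨hp, hq, hne, _⟩
    exact absurd (card_le_one.1 h1 p hp q hq) hne
  | up A B _ _ hd hle ihA ihB =>
    intro a b a' b' hab hab'
    rcases A.eq_empty_or_nonempty with rfl | ⟨w, hw⟩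
    · rw [empty_union]; exact ihB a b a' b' hab hab'
    rcases B.eq_empty_or_nonempty with rfl | ⟨v, hv⟩
    · rw [union_empty]; exact ihA a b a' b' hab hab'
    obtain ⟨c, hca, hcb⟩ := third a b hab
    obtain ⟨f, f1, f2, f3, f4, f5⟩ := ihA b a a' b' hab.symm hab'
    obtain ⟨g, g1, g2, g3, g4, g5⟩ := ihB a c a' b' hca.symm hab'
    have hB : ∀ p ∈ B, p ∉ A := fun p hp hpA => disjoint_left.1 hd hpA hp
    refine ⟨fun p => if p ∈ A then f p else g p, ?_, ?_, ?_, ?_, ?_⟩
    · intro p hp hm
      rcases mem_union.1 hp with h | h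
      · have e := hm v (mem_union_right A hv) (hle p h v hv).1 (hle p h v hv).2
        subst e
        exact absurd h (hB _ hv)
      · simp only [if_neg (hB p h)]
        exact g1 p h fun z hz => hm z (mem_union_right A hz)
    · intro p hp hm
      rcases mem_union.1 hp with h | h
      · simp only [if_pos h]
        exact (f2 p h fun z hz => hm z (mem_union_left B hz)).symm
      · have e := hm w (mem_union_left B hw) (hle w hw p h).1 (hle w hw p h).2
        subst e
        exact absurd hw (hB _ h)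
    · intro p hp hm
      rcases mem_union.1 hp with h | h
      · simp only [if_pos h]
        exact f3 p h fun z hz => hm z (mem_union_left B hz)
      · simp only [if_neg (hB p h)]
        exact g3 p h fun z hz => hm z (mem_union_right A hz)
    · intro p hp hm
      rcases mem_union.1 hp with h | h
      · simp only [if_pos h]
        exact f4 p h fun z hz => hm z (mem_union_left B hz)
      · simp only [if_neg (hB p h)]
        exact g4 p h fun z hz => hm z (mem_union_right A hz)
    · have key : ∀ p ∈ A, ∀ q ∈ B, Adj (A ∪ B) p q → f p ≠ g q := by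
        intro p hp q hq hadj heq
        obtain ⟨h1, h2⟩ := cross_up hd hle hp hq hadj
        have e1 := f1 p hp h1
        have e2 := g2 q hq h2
        rw [heq] at e1
        rw [e1] at e2
        rcases e2 with e2 | e2
        · exact hab e2.symm
        · exact hcb e2.symm
      intro p q hadj
      rcases mem_union.1 hadj.1 with hp | hp <;> rcases mem_union.1 hadj.2.1 with hq | hq
      · simp only [if_pos hp, if_pos hq]
        exact f5 p q (adj_mono subset_union_left hp hq hadj)
      · simp only [if_pos hp, if_neg (hB q hq)]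
        exact key p hp q hq hadj
      · simp only [if_pos hq, if_neg (hB p hp)]
        exact (key q hq p hp (adj_symm hadj)).symm
      · simp only [if_neg (hB p hp), if_neg (hB q hq)]
        exact g5 p q (adj_mono subset_union_right hp hq hadj)
  | down A B _ _ hd hle ihA ihB =>
    intro a b a' b' hab hab'
    rcases A.eq_empty_or_nonempty with rfl | ⟨w, hw⟩
    · rw [empty_union]; exact ihB a b a' b' hab hab'
    rcases B.eq_empty_or_nonempty with rfl | ⟨v, hv⟩
    · rw [union_empty]; exact ihA a b a' b' hab hab'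
    obtain ⟨c, hca, hcb⟩ := third a' b' hab'
    obtain ⟨f, f1, f2, f3, f4, f5⟩ := ihA a b b' a' hab hab'.symm
    obtain ⟨g, g1, g2, g3, g4, g5⟩ := ihB a b a' c hab hca.symm
    have hB : ∀ p ∈ B, p ∉ A := fun p hp hpA => disjoint_left.1 hd hpA hp
    refine ⟨fun p => if p ∈ A then f p else g p, ?_, ?_, ?_, ?_, ?_⟩
    · intro p hp hm
      rcases mem_union.1 hp with h | h
      · simp only [if_pos h]
        exact f1 p h fun z hz => hm z (mem_union_left B hz)
      · simp only [if_neg (hB p h)]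
        exact g1 p h fun z hz => hm z (mem_union_right A hz)
    · intro p hp hm
      rcases mem_union.1 hp with h | h
      · simp only [if_pos h]
        exact f2 p h fun z hz => hm z (mem_union_left B hz)
      · simp only [if_neg (hB p h)]
        exact g2 p h fun z hz => hm z (mem_union_right A hz)
    · intro p hp hm
      rcases mem_union.1 hp with h | h
      · have e := hm v (mem_union_right A hv) (hle p h v hv).1 (hle p h v hv).2
        subst e
        exact absurd h (hB _ hv)
      · simp only [if_neg (hB p h)]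
        exact g3 p h fun z hz => hm z (mem_union_right A hz)
    · intro p hp hm
      rcases mem_union.1 hp with h | h
      · simp only [if_pos h]
        exact (f4 p h fun z hz => hm z (mem_union_left B hz)).symm
      · have e := hm w (mem_union_left B hw) (hle w hw p h).1 (hle w hw p h).2
        subst e
        exact absurd hw (hB _ h)
    · have key : ∀ p ∈ A, ∀ q ∈ B, Adj (A ∪ B) p q → f p ≠ g q := by
        intro p hp q hq hadj heq
        obtain ⟨h1, h2⟩ := cross_down hd hle hp hq hadj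
        have e1 := f3 p hp h1
        have e2 := g4 q hq h2
        rw [heq] at e1
        rw [e1] at e2
        rcases e2 with e2 | e2
        · exact hab' e2.symm
        · exact hcb e2.symm
      intro p q hadj
      rcases mem_union.1 hadj.1 with hp | hp <;> rcases mem_union.1 hadj.2.1 with hq | hq
      · simp only [if_pos hp, if_pos hq]
        exact f5 p q (adj_mono subset_union_left hp hq hadj)
      · simp only [if_pos hp, if_neg (hB q hq)]
        exact key p hp q hq hadj
      · simp only [if_pos hq, if_neg (hB p hp)]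
        exact (key q hq p hp (adj_symm hadj)).symm
      · simp only [if_neg (hB p hp), if_neg (hB q hq)]
        exact g5 p q (adj_mono subset_union_right hp hq hadj)

/-- unions -/
theorem union_colour (K u : ℕ) (hu : 1 ≤ u) (D : Fin u → Finset (ℝ × ℝ))
    (hD : ∀ j, ∃ f : ℝ × ℝ → Fin K × Fin K, ∀ p q, Adj (D j) p q → f p ≠ f q) :
    ∃ f : ℝ × ℝ → Fin (u * (K * K)),
      ∀ p q, Adj ((univ : Finset (Fin u)).biUnion D) p q → f p ≠ f q := by
  classical
  choose f hf using hD
  have hblk : ∀ p : ℝ × ℝ, ∃ i : Fin u, p ∈ (univ : Finset (Fin u)).biUnion D → p ∈ D i := by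
    intro p
    by_cases h : p ∈ (univ : Finset (Fin u)).biUnion D
    · obtain ⟨i, _, hi⟩ := mem_biUnion.1 h
      exact ⟨i, fun _ => hi⟩
    · exact ⟨⟨0, by omega⟩, fun h' => absurd h' h⟩
  choose blk hblk using hblk
  refine ⟨fun p => finProdFinEquiv (blk p, finProdFinEquiv (f (blk p) p)), ?_⟩
  intro p q hadj heq
  have h1 := finProdFinEquiv.injective heq
  rw [Prod.mk.injEq] at h1
  have h2 := finProdFinEquiv.injective h1.2
  have hp := hblk p hadj.1
  have hq := hblk q hadj.2.1
  rw [← h1.1] at hq h2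
  exact hf (blk p) p q (adj_mono (fun x hx => mem_biUnion.2 ⟨blk p, mem_univ _, hx⟩) hp hq hadj) h2

theorem result :
    (∀ C u : ℕ, 1 ≤ u → ∀ P : Finset (ℝ × ℝ),
      (∃ D : Fin u → Finset (ℝ × ℝ), (∀ j, Cl C (D j)) ∧ P = (univ : Finset (Fin u)).biUnion D) →
      ∃ f : ℝ × ℝ → Fin (u * ((C + 3) * (C + 3))), ∀ p q, Adj P p q → f p ≠ f q) ∧
    (∀ u : ℕ, 1 ≤ u → ∀ P : Finset (ℝ × ℝ),
      (∃ D : Fin u → Finset (ℝ × ℝ), (∀ j, Separable (D j)) ∧
        P = (univ : Finset (Fin u)).biUnion D) →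
      ∃ f : ℝ × ℝ → Fin (u * (3 * 3)), ∀ p q, Adj P p q → f p ≠ f q) := by
  refine ⟨?_, ?_⟩
  · rintro C u hu P ⟨D, hD, rfl⟩
    refine union_colour (C + 3) u hu D fun j => ?_
    obtain ⟨f, -, -, -, -, hf⟩ := colour C (D j) (hD j) ⟨0, by omega⟩ ⟨1, by omega⟩ ⟨0, by omega⟩
      ⟨1, by omega⟩ (by simp) (by simp)
    exact ⟨f, hf⟩
  · rintro u hu P ⟨D, hD, rfl⟩
    refine union_colour 3 u hu D fun j => ?_
    obtain ⟨f, -, -, -, -, hf⟩ := colour3 (D j) (hD j) 0 1 0 1 (by decide) (by decide)
    exact ⟨f, hf⟩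

end Pool.Agent.Results.MP_b66d25_co.SubstitutionClosure
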